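import Pool.Agent.helper88.Vis.Defs

set_option autoImplicit false

/-!
# MP_6b3417_co, part I, module I-G: assembly of the big line theorem
-/

namespace Pool.Agent.helper19.Vis

open Pool.Agent.helper88.Vis
open Pool.Agent.helper47.Vis

lemma K5free_inner {P : Finset (ℝ × ℝ)} (h : K5free (P : Set (ℝ × ℝ))) :
    K5free (inner P : Set (ℝ × ℝ)) := by
  rintro ⟨f, hf, hs⟩
  refine h ⟨f, fun i => fil_subset _ _ (hf i), fun i j hij => ⟨(hs i j hij).1, fun r hr hrs => ?_⟩⟩
  by_cases hrB : r ∈ Bd P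
  · obtain ⟨-, g, hg0, hg⟩ := mem_fil.1 hrB
    have hi := mem_fil.1 (hf i)
    have hj := mem_fil.1 (hf j)
    obtain ⟨a, b, ha, hb, hab, rfl⟩ := hrs
    have h1 := hg _ hi.1
    have h2 := hg _ hj.1
    simp only [Prod.fst_add, Prod.snd_add, Prod.smul_fst, Prod.smul_snd, smul_eq_mul] at h1 h2
    apply hi.2
    refine mem_fil.2 ⟨hi.1, g, hg0, fun s hs => ?_⟩
    have h3 := hg _ hs
    simp only [Prod.fst_add, Prod.snd_add, Prod.smul_fst, Prod.smul_snd, smul_eq_mul] at h3
    have e : g.1 * (a * (f i).1 + b * (f j).1) + g.2 * (a * (f i).2 + b * (f j).2)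
        = a * (g.1 * (f i).1 + g.2 * (f i).2) + b * (g.1 * (f j).1 + g.2 * (f j).2) := by ring
    rw [e] at h1 h2 h3
    set A := g.1 * (f i).1 + g.2 * (f i).2
    set B := g.1 * (f j).1 + g.2 * (f j).2
    have ha' : a = 1 - b := by linarith
    subst ha'
    -- B ≤ A and A ≤ B
    have hBA : B ≤ A := by
      by_contra hc
      push Not at hc
      nlinarith
    have hAB : A ≤ B := by
      by_contra hc
      push Not at hc
      nlinarith
    have : A = B := le_antisymm hAB hBA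
    rw [← this] at h3
    nlinarith
  · exact (hs i j hij).2 r (mem_fil.2 ⟨hr, hrB⟩) hrs

lemma inner_subset (P : Finset (ℝ × ℝ)) : inner P ⊆ P := fil_subset _ _

lemma layer_subset (P : Finset (ℝ × ℝ)) : ∀ n, layer P n ⊆ P
  | 0 => Finset.Subset.refl _
  | n + 1 => (inner_subset _).trans (layer_subset P n)

lemma K5free_layer {P : Finset (ℝ × ℝ)} (h : K5free (P : Set (ℝ × ℝ))) :
    ∀ n, K5free (layer P n : Set (ℝ × ℝ))
  | 0 => h
  | n + 1 => K5free_inner (K5free_layer h n)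

lemma NoLine_mono {P Q : Finset (ℝ × ℝ)} {ℓ : ℕ} (h : NoLine P ℓ) (hQ : Q ⊆ P) : NoLine Q ℓ := by
  intro c d hd
  refine lt_of_le_of_lt (Finset.card_le_card ?_) (h c d hd)
  intro x hx
  have := mem_fil.1 hx
  exact mem_fil.2 ⟨hQ this.1, this.2⟩

/-- Strict lexicographic order. -/
def lexlt (p q : ℝ × ℝ) : Prop := p.1 < q.1 ∨ (p.1 = q.1 ∧ p.2 < q.2)

lemma lexlt_of_not {p q : ℝ × ℝ} (h : ¬ lexlt q p) (hne : p ≠ q) : lexlt p q := by
  unfold lexlt at *
  push Not at h
  rcases lt_trichotomy p.1 q.1 with h1 | h1 | h1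
  · exact Or.inl h1
  · refine Or.inr ⟨h1, lt_of_le_of_ne (h.2 h1.symm) ?_⟩
    intro h2
    exact hne (Prod.ext h1 h2)
  · exact absurd h.1 (not_le.2 h1)

lemma exists_lexmin (C : Finset (ℝ × ℝ)) (h : C.Nonempty) :
    ∃ e ∈ C, ∀ c ∈ C, c ≠ e → lexlt e c := by
  obtain ⟨a, ha, hamin⟩ := Finset.exists_min_image C (fun p => p.1) h
  obtain ⟨e, he, hemin⟩ := Finset.exists_min_image (fil C (fun p => p.1 = a.1)) (fun p => p.2)
    ⟨a, mem_fil.2 ⟨ha, rfl⟩⟩
  have he' := mem_fil.1 he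
  refine ⟨e, he'.1, fun c hc hne => ?_⟩
  apply lexlt_of_not _ hne.symm
  rintro (h1 | ⟨h1, h2⟩)
  · have := hamin c hc
    rw [he'.2] at h1
    exact absurd this (not_le.2 h1)
  · exact absurd (hemin c (mem_fil.2 ⟨hc, h1.trans he'.2⟩)) (not_le.2 h2)

lemma convex_lex (e : ℝ × ℝ) : Convex ℝ {p | lexlt e p} := by
  intro x hx y hy a b ha hb hab
  have hb' : b = 1 - a := by linarith
  subst hb'
  simp only [Set.mem_ofPred_eq, lexlt, Prod.fst_add, Prod.snd_add, Prod.smul_fst, Prod.smul_snd,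
    smul_eq_mul] at hx hy ⊢
  rcases ha.eq_or_lt with ha0 | ha0
  · subst ha0
    simpa using hy
  rcases hb.eq_or_lt with hb0 | hb0
  · have : a = 1 := by linarith
    subst this
    simpa using hx
  rcases hx with hx | ⟨hx1, hx2⟩
  · left
    rcases hy with hy | ⟨hy1, hy2⟩ <;> nlinarith
  · rcases hy with hy | ⟨hy1, hy2⟩
    · left; nlinarith
    · right
      constructor
      · rw [← hx1, ← hy1]; ring
      · nlinarith

/-- Points of `P` in the convex hull of `C`. -/
noncomputable def hullOf (P C : Finset (ℝ × ℝ)) : Finset (ℝ × ℝ) :=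
  fil P (fun p => p ∈ convexHull ℝ (C : Set (ℝ × ℝ)))

/-- Weakly convex. -/
def WConv (C : Finset (ℝ × ℝ)) : Prop := ∀ c ∈ C, c ∈ Bd C

lemma Bd_mono {P Q : Finset (ℝ × ℝ)} (h : Q ⊆ P) {x : ℝ × ℝ} (hx : x ∈ Bd P) (hxQ : x ∈ Q) :
    x ∈ Bd Q := by
  obtain ⟨-, g, hg0, hg⟩ := mem_fil.1 hx
  exact mem_fil.2 ⟨hxQ, g, hg0, fun r hr => hg r (h hr)⟩

lemma Bd_subset (P : Finset (ℝ × ℝ)) : Bd P ⊆ P := fil_subset _ _

lemma halfplane_hull {C : Finset (ℝ × ℝ)} {g : ℝ × ℝ} {k : ℝ}
    (h : ∀ r ∈ C, k ≤ g.1 * r.1 + g.2 * r.2) {x : ℝ × ℝ}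
    (hx : x ∈ convexHull ℝ (C : Set (ℝ × ℝ))) : k ≤ g.1 * x.1 + g.2 * x.2 := by
  have hconv : Convex ℝ {p : ℝ × ℝ | k ≤ g.1 * p.1 + g.2 * p.2} := by
    intro x hx y hy a b ha hb hab
    have hb' : b = 1 - a := by linarith
    subst hb'
    simp only [Set.mem_ofPred_eq, Prod.fst_add, Prod.snd_add, Prod.smul_fst, Prod.smul_snd,
      smul_eq_mul] at hx hy ⊢
    nlinarith
  exact convexHull_min (fun r hr => h r hr) hconv hx

/-- Main step: a minimal weakly convex `m`-set. -/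
lemma exists_minimal (P : Finset (ℝ × ℝ)) (m : ℕ) (hm : 0 < m)
    (h : ∃ C ⊆ P, C.card = m ∧ WConv C) :
    ∃ Q ⊆ P, (K5free (P : Set (ℝ × ℝ)) → K5free (Q : Set (ℝ × ℝ))) ∧ (Bd Q).card = m ∧
      (Bd (inner Q)).card < m := by
  classical
  obtain ⟨C₀, hC₀P, hC₀m, hC₀W⟩ := h
  obtain ⟨C, hC, hmin⟩ := Finset.exists_min_image ((P.powersetCard m).filter (fun C => WConv C))
    (fun C => (hullOf P C).card)
    ⟨C₀, Finset.mem_filter.2 ⟨Finset.mem_powersetCard.2 ⟨hC₀P, hC₀m⟩, hC₀W⟩⟩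
  rw [Finset.mem_filter, Finset.mem_powersetCard] at hC
  obtain ⟨⟨hCP, hCm⟩, hCW⟩ := hC
  have hCne : C.Nonempty := by
    rw [← Finset.card_pos, hCm]; exact hm
  obtain ⟨e, heC, hemin⟩ := exists_lexmin C hCne
  set Q := hullOf P C with hQ
  have hQP : Q ⊆ P := fil_subset _ _
  have hCQ : C ⊆ Q := fun c hc => mem_fil.2 ⟨hCP hc, subset_convexHull ℝ _ hc⟩
  -- points of `Q` other than `e` are lexicographically larger
  have hlex : ∀ x ∈ Q, x ≠ e → lexlt e x := by
    intro x hx hxe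
    have hxh := (mem_fil.1 hx).2
    -- use the convex set {p | p = e ∨ lexlt e p}
    have hconv : Convex ℝ {p : ℝ × ℝ | ¬ lexlt p e} := by
      intro x hx y hy a b ha hb hab
      have hb' : b = 1 - a := by linarith
      subst hb'
      simp only [Set.mem_ofPred_eq, lexlt, Prod.fst_add, Prod.snd_add, Prod.smul_fst,
        Prod.smul_snd, smul_eq_mul, not_or, not_and, not_lt] at hx hy ⊢
      rcases ha.eq_or_lt with ha0 | ha0
      · subst ha0
        simpa using hy
      rcases hb.eq_or_lt with hb0 | hb0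
      · have : a = 1 := by linarith
        subst this
        simpa using hx
      constructor
      · nlinarith [hx.1, hy.1]
      · intro h1
        have hx1 : x.1 = e.1 := by
          by_contra hne
          have : e.1 < x.1 := lt_of_le_of_ne hx.1 (Ne.symm hne)
          nlinarith [hy.1]
        have hy1 : y.1 = e.1 := by
          by_contra hne
          have : e.1 < y.1 := lt_of_le_of_ne hy.1 (Ne.symm hne)
          nlinarith [hx.1]
        have := hx.2 hx1
        have := hy.2 hy1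
        nlinarith
    have hsub : (C : Set (ℝ × ℝ)) ⊆ {p : ℝ × ℝ | ¬ lexlt p e} := by
      intro c hc
      rcases eq_or_ne c e with rfl | hce
      · simp [lexlt]
      · have := hemin c hc hce
        simp only [Set.mem_ofPred_eq]
        unfold lexlt at this ⊢
        rintro (h1 | ⟨h1, h2⟩)
        · rcases this with h3 | ⟨h3, h4⟩ <;> linarith
        · rcases this with h3 | ⟨h3, h4⟩ <;> linarith
    exact lexlt_of_not (convexHull_min hsub hconv hxh) hxe.symm
  -- a weakly convex `m`-subset of `Q` contains `e`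
  have key : ∀ D : Finset (ℝ × ℝ), D ⊆ Q → D.card = m → WConv D → e ∈ D := by
    intro D hDQ hDm hDW
    by_contra heD
    have h1 := hmin D (Finset.mem_filter.2
      ⟨Finset.mem_powersetCard.2 ⟨hDQ.trans hQP, hDm⟩, hDW⟩)
    have h2 : (hullOf P D).card < (hullOf P C).card := by
      apply Finset.card_lt_card
      refine ⟨?_, ?_⟩
      · intro x hx
        have hx' := mem_fil.1 hx
        refine mem_fil.2 ⟨hx'.1, ?_⟩
        refine convexHull_min ?_ (convex_convexHull ℝ _) hx'.2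
        intro y hy
        exact (mem_fil.1 (hDQ hy)).2
      · intro hsub
        have h3 : e ∈ hullOf P D := hsub (hCQ heC)
        have h4 := (mem_fil.1 h3).2
        have h5 : (D : Set (ℝ × ℝ)) ⊆ {p | lexlt e p} := by
          intro y hy
          refine hlex y (hDQ hy) ?_
          rintro rfl
          exact heD hy
        have h6 : lexlt e e := convexHull_min h5 (convex_lex e) h4
        simp [lexlt] at h6
    exact absurd h1 (not_le.2 h2)
  -- `C ⊆ Bd Q`
  have hCB : C ⊆ Bd Q := by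
    intro c hc
    obtain ⟨-, g, hg0, hg⟩ := mem_fil.1 (hCW c hc)
    exact mem_fil.2 ⟨hCQ hc, g, hg0, fun r hr => halfplane_hull hg (mem_fil.1 hr).2⟩
  have hBC : Bd Q = C := by
    refine Finset.Subset.antisymm ?_ hCB
    intro x hx
    by_contra hxC
    have hD : e ∈ (insert x C).erase e := by
      apply key
      · intro y hy
        rcases Finset.mem_insert.1 (Finset.mem_of_mem_erase hy) with rfl | hy
        · exact Bd_subset _ hx
        · exact hCQ hy
      · rw [Finset.card_erase_of_mem (Finset.mem_insert_of_mem heC),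
          Finset.card_insert_of_notMem hxC, hCm]
        rfl
      · intro y hy
        have hyB : y ∈ Bd Q := by
          rcases Finset.mem_insert.1 (Finset.mem_of_mem_erase hy) with rfl | hy
          · exact hx
          · exact hCB hy
        refine Bd_mono ?_ hyB hy
        intro z hz
        rcases Finset.mem_insert.1 (Finset.mem_of_mem_erase hz) with rfl | hz
        · exact Bd_subset _ hx
        · exact hCQ hz
    simp at hD
  refine ⟨Q, hQP, fun hK => ?_, ?_, ?_⟩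
  · refine K5free.convex hK (convex_convexHull ℝ (C : Set (ℝ × ℝ))) (Q := (Q : Set (ℝ × ℝ))) ?_
    intro p
    exact mem_fil
  · rw [hBC, hCm]
  · by_contra hge
    push Not at hge
    obtain ⟨D, hDB, hDm⟩ := Finset.exists_subset_card_eq hge
    have heD : e ∈ D := by
      apply key D
      · exact hDB.trans ((Bd_subset _).trans (inner_subset _))
      · exact hDm
      · intro c hc
        refine Bd_mono ?_ (hDB hc) hc
        exact hDB.trans (Bd_subset _)
    have h1 : e ∈ inner Q := Bd_subset _ (hDB heD)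
    exact (mem_fil.1 h1).2 (hCB heC)

/-- The layers are bounded by powers. -/
lemma layers_bound (ℓ : ℕ)
    (layer_bound : ∀ P : Finset (ℝ × ℝ), K5free (P : Set (ℝ × ℝ)) → NoLine P ℓ →
      (Bd P).card ≤ (8 * ℓ + 5) * max (Bd (inner P)).card 3)
    (P : Finset (ℝ × ℝ)) (hK : K5free (P : Set (ℝ × ℝ))) (hl : NoLine P ℓ) (n : ℕ) :
    max (Bd P).card 3 ≤ (8 * ℓ + 5) ^ n * max (Bd (layer P n)).card 3 := by
  induction n with
  | zero => simp [layer]
  | succ n ih =>
    refine ih.trans ?_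
    rw [pow_succ, mul_assoc]
    refine Nat.mul_le_mul_left _ ?_
    have h1 := layer_bound (layer P n) (K5free_layer hK n) (NoLine_mono hl (layer_subset P n))
    refine max_le h1 ?_
    calc 3 ≤ 1 * max (Bd (layer P (n + 1))).card 3 := by simp
      _ ≤ (8 * ℓ + 5) * max (Bd (layer P (n + 1))).card 3 := Nat.mul_le_mul_right _ (by omega)

/-- **Module I-G** (big line theorem), from I-C, I-E, I-F. -/
theorem bigline_of (ℓ : ℕ)
    (layer_bound : ∀ P : Finset (ℝ × ℝ), K5free (P : Set (ℝ × ℝ)) → NoLine P ℓ →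
      (Bd P).card ≤ (8 * ℓ + 5) * max (Bd (inner P)).card 3)
    (chain_collinear : ∀ P : Finset (ℝ × ℝ), K5free (P : Set (ℝ × ℝ)) →
      (Bd (inner P)).card < (Bd P).card → (layer P (ℓ + 2)).Nonempty →
      ∃ c d : ℝ × ℝ, d ≠ 0 ∧ ℓ ≤ (fil P (fun p => sd c d p = 0)).card)
    (exists_wconv : ∀ (m : ℕ) (P : Finset (ℝ × ℝ)), 2 ^ (m ^ 2) < P.card →
      ∃ C ⊆ P, C.card = m ∧ ∀ c ∈ C, c ∈ Bd C) :
    ∃ N : ℕ, ∀ P : Finset (ℝ × ℝ), K5free (P : Set (ℝ × ℝ)) → NoLine P ℓ → P.card ≤ N := by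
  refine ⟨2 ^ ((3 * (8 * ℓ + 5) ^ (ℓ + 2) + 1) ^ 2), fun P hK hl => ?_⟩
  by_contra hbig
  push Not at hbig
  obtain ⟨C, hCP, hCm, hCW⟩ := exists_wconv _ P hbig
  obtain ⟨Q, hQP, hQK, hQ1, hQ2⟩ := exists_minimal P (3 * (8 * ℓ + 5) ^ (ℓ + 2) + 1)
    (Nat.succ_pos _) ⟨C, hCP, hCm, hCW⟩
  have hQK := hQK hK
  have hQl := NoLine_mono hl hQP
  rcases (layer Q (ℓ + 2)).eq_empty_or_nonempty with he | hne
  · have h1 := layers_bound ℓ layer_bound Q hQK hQl (ℓ + 2)
    rw [he] at h1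
    have h2 : Bd (∅ : Finset (ℝ × ℝ)) = ∅ := Finset.subset_empty.1 (Bd_subset _)
    rw [h2, hQ1] at h1
    simp only [Finset.card_empty, Nat.zero_le, max_eq_right] at h1
    have h3 := le_trans (le_max_left _ _) h1
    have : (8 * ℓ + 5) ^ (ℓ + 2) * 3 = 3 * (8 * ℓ + 5) ^ (ℓ + 2) := by ring
    omega
  · obtain ⟨c, d, hd, hcd⟩ := chain_collinear Q hQK (by rw [hQ1]; exact hQ2) hne
    exact absurd hcd (not_le.2 (hQl c d hd))

end Pool.Agent.helper19.Vis
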